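import Pool.Agent.H231Z.MR.Main

set_option autoImplicit false

namespace Pool.Agent.Results.MP_954c34_an.AHalfHolder

open MeasureTheory Set Real Pool.Agent.H231Z.MR

/-- For every `T > 0` there is a continuous, bounded, uniformly elliptic complex coefficient `A` on
`(0, π)` whose form on `V = H¹₀(0, π)` is `1/2`-Hölder in time in `ℒ(V, V*)`, and a right-hand side
`f ∈ L²(0, T; H)` whose weak solution `u` with `u(0) = 0` is not in `H¹(0, T; H)`. -/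
theorem result (T : ℝ) (hT : 0 < T) : ∃ (A : ℝ → ℝ → ℂ) (C : ℝ),
    Continuous (fun p : ℝ × ℝ => A p.1 p.2) ∧ (∀ t x, 1 / 3 ≤ (A t x).re ∧ ‖A t x‖ ≤ 2) ∧
    (∀ t s x, ‖A t x - A s x‖ ≤ C * √|t - s|) ∧
    (∀ v g φ ψ : ℝ → ℂ, IsV v g → IsV φ ψ → ∀ t s,
      ‖ip (fun x => A t x * g x) ψ - ip (fun x => A s x * g x) ψ‖ ≤
        C * √|t - s| * (√(∫ x in Ioo 0 π, ‖g x‖ ^ 2) * √(∫ x in Ioo 0 π, ‖ψ x‖ ^ 2))) ∧
    ∃ f u D : ℝ → ℝ → ℂ, InL2 T f ∧ IsSol T A f u D ∧ ¬ InH1 T u := by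
  obtain ⟨A, C, h1, h2, h3, h4⟩ := main T hT
  refine ⟨A, C, h1, h2, h3, fun v g φ ψ hv hφ t s => ?_, h4⟩
  exact op_bound (Continuous.comp (g := fun p : ℝ × ℝ => A p.1 p.2) (f := fun x => (t, x)) h1
    (by fun_prop)) (Continuous.comp (g := fun p : ℝ × ℝ => A p.1 p.2) (f := fun x => (s, x)) h1
    (by fun_prop)) (h3 t s) hv.1 hφ.1

end Pool.Agent.Results.MP_954c34_an.AHalfHolder
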